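import Pool.Agent.H.MP_6ac155.B

set_option autoImplicit false

namespace Pool.Agent.Results.MP_914893_an.Main

def DD2P (X : Type) [NormedAddCommGroup X] [NormedSpace ℝ X] : Prop :=
  ∀ U : Set (WeakSpace ℝ X), IsOpen U → ∀ x : X, ‖x‖ = 1 → toWeakSpace ℝ X x ∈ U →
    ∀ ε : ℝ, 0 < ε → ∃ y : X, ‖y‖ ≤ 1 ∧ toWeakSpace ℝ X y ∈ U ∧ 2 - ε < ‖x - y‖

def WDD2P (X : Type) [NormedAddCommGroup X] [NormedSpace ℝ X] : Prop :=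
  ∀ U : Set (WeakDual ℝ X), IsOpen U → ∀ f : StrongDual ℝ X, ‖f‖ = 1 → f.toWeakDual ∈ U →
    ∀ ε : ℝ, 0 < ε → ∃ g : StrongDual ℝ X, ‖g‖ ≤ 1 ∧ g.toWeakDual ∈ U ∧ 2 - ε < ‖f - g‖

theorem result (X : Type) [NormedAddCommGroup X] [NormedSpace ℝ X] [CompleteSpace X] :
    DD2P X ↔ WDD2P X := by
  have b1 : ∀ (f : StrongDual ℝ X) (x : X), |topDualPairing ℝ X f x| ≤ ‖f‖ * ‖x‖ :=
    fun f x => f.le_opNorm x
  have b2 : ∀ (x : X) (f : StrongDual ℝ X), |(topDualPairing ℝ X).flip x f| ≤ ‖x‖ * ‖f‖ :=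
    fun x f => mul_comm ‖f‖ ‖x‖ ▸ b1 f x
  exact (Pool.Agent.H.MP_6ac155.eqv b2).symm.trans
    (Pool.Agent.H.MP_6ac155.dual.trans (Pool.Agent.H.MP_6ac155.eqv b1))

end Pool.Agent.Results.MP_914893_an.Main
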